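import Mathlib

/-!
# Abelian varieties over number fields: Mordell-Weil groups and root numbers

The local root numbers, the Mordell-Weil groups with the Néron-Tate height and the endomorphism
algebras of abelian varieties over a number field `K`, with their known properties.
-/

set_option autoImplicit false

open NumberField IsDedekindDomain Polynomial

namespace Pool.Agent.Zk51.PC

section Places

variable (K : Type) [Field K] [NumberField K]

/-- The places of `K`, finite or infinite. -/
abbrev Place : Type := HeightOneSpectrum (𝓞 K) ⊕ InfinitePlace K

/-- The completion of `K` at a place. -/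
def Compl : Place K → Type
  | Sum.inl v => v.adicCompletion K
  | Sum.inr v => v.Completion

noncomputable instance instFieldCompl : ∀ v : Place K, Field (Compl K v)
  | Sum.inl v => (inferInstance : Field (v.adicCompletion K))
  | Sum.inr v => (inferInstance : Field v.Completion)

noncomputable instance instTopCompl : ∀ v : Place K, TopologicalSpace (Compl K v)
  | Sum.inl v => (inferInstance : TopologicalSpace (v.adicCompletion K))
  | Sum.inr v => (inferInstance : TopologicalSpace v.Completion)

noncomputable instance instAlgCompl : ∀ v : Place K, Algebra K (Compl K v)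
  | Sum.inl v => (inferInstance : Algebra K (v.adicCompletion K))
  | Sum.inr v => (inferInstance : Algebra K v.Completion)

/-- The element of the multiplicative group of the completion given by an element of `K`. -/
noncomputable def emb (v : Place K) : Kˣ →* (Compl K v)ˣ :=
  Units.map (algebraMap K (Compl K v)).toMonoidHom

/-- An element of the completion at a finite place as an element of the adic completion. -/
def toAdic (v : HeightOneSpectrum (𝓞 K)) (x : Compl K (Sum.inl v)) : v.adicCompletion K := x

/-- The valuation of an element of the completion at a finite place is one. -/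
def IsUnitAt (v : HeightOneSpectrum (𝓞 K)) (u : (Compl K (Sum.inl v))ˣ) : Prop :=
  Valued.v (toAdic K v u) = 1

/-- An idele class character of `K`: continuous characters `loc v` of the multiplicative groups of
the completions, almost all of them trivial on the units, such that the product of the values
`loc v x` at every `x` in `K` different from zero is one. -/
structure IdeleClassCharacter where
  loc : ∀ v : Place K, (Compl K v)ˣ →* ℂˣ
  continuous_loc : ∀ v, Continuous (loc v)
  unramified : {v : HeightOneSpectrum (𝓞 K) | ∃ u, IsUnitAt K v u ∧ loc (Sum.inl v) u ≠ 1}.Finite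
  trivial_on_K : ∀ x : Kˣ, ∏ᶠ v : Place K, loc v (emb K v x) = 1

end Places

/-- The isomorphism classes of the representations of the Weil-Deligne group of a local field `F`
(Frobenius semisimple if `F` is not archimedean), with direct sums, `dual V` is the dual of `V`
twisted by the cyclotomic character, `det V` is the determinant of `V` as a character of the
multiplicative group of `F`, and `root V` is the root number (for a fixed additive character and the
self-dual measure). The formula is due to Deligne (and Langlands). -/
structure LocalTheory (F : Type) [Field F] where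
  Rep : Type
  [monoid : AddCommMonoid Rep]
  dual : Rep → Rep
  det : Rep → (Fˣ →* ℂˣ)
  root : Rep → ℂˣ
  root_zero : root 0 = 1
  root_add : ∀ V W, root (V + W) = root V * root W
  root_dual : ∀ V, root V * root (dual V) = det V (-1)

attribute [instance] LocalTheory.monoid

/-- The eigenvalues of an element of a finite dimensional `ℚ`-algebra in the complex numbers. -/
noncomputable def eigenvalues {D : Type} [Ring D] [Algebra ℚ D] (a : D) : Finset ℂ :=
  open Classical in ((minpoly ℚ a).aroots ℂ).toFinset

/-- The properties of the Néron-Tate height pairing `h` on the vector space `V = A(K) ⊗ ℚ`: it is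
bilinear and symmetric, and positive definite on `V ⊗ ℝ`. -/
structure IsHeight (V : Type) [AddCommGroup V] [Module ℚ V] (h : V → V → ℝ) : Prop where
  add : ∀ x x' y, h (x + x') y = h x y + h x' y
  smul : ∀ (c : ℚ) (x y : V), h (c • x) y = c * h x y
  symm : ∀ x y, h x y = h y x
  pos : ∀ (n : ℕ) (x : Fin n → V), LinearIndependent ℚ x → ∀ c : Fin n → ℝ, c ≠ 0 →
    0 < ∑ i, ∑ j, c i * c j * h (x i) (x j)

variable (K : Type) [Field K] [NumberField K]

/-- The representations `rep v` of the Weil-Deligne groups of the completions of `K` which are given
by an abelian variety `A` of dimension `g` over `K`, with an action of the algebra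
`D = End_K(A) ⊗ ℚ` with the Rosati involution `star`; `piece v a α` is the generalized eigenspace of
the endomorphism `a` for the eigenvalue `α`. -/
structure Reps (T : ∀ v : Place K, LocalTheory (Compl K v)) (g : ℕ) (D : Type) [Ring D]
    [Algebra ℚ D] [StarRing D] where
  rep : ∀ v : Place K, (T v).Rep
  piece : ∀ v : Place K, D → ℂ → (T v).Rep
  sum : ∀ v a, rep v = ∑ α ∈ eigenvalues a, piece v a α
  /-- the Weil pairing `⟨a x, y⟩ = ⟨x, star a y⟩` -/
  dual : ∀ v a α, (T v).dual (piece v a α) = piece v (star a) α
  neg : ∀ v a α, piece v (-a) α = piece v a (-α)
  /-- the determinants of the generalized eigenspaces are (algebraic) Hecke characters -/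
  det : ∀ a α, ∃ ψ : IdeleClassCharacter K, ∀ v, (T v).det (piece v a α) = ψ.loc v
  /-- at the places of good reduction the root numbers are one -/
  good : ∀ a α, {v : Place K | (T v).root (piece v a α) ≠ 1}.Finite
  /-- for `a = star a` the eigenspaces are symplectic -/
  sign : ∀ v a α, star a = a → (T v).root (piece v a α) = 1 ∨ (T v).root (piece v a α) = -1
  /-- the root numbers of symplectic representations are invariant under field automorphisms
  (Rohrlich), and the Hodge numbers of conjugate eigenspaces for `a = star a` are equal -/
  conj : ∀ v a α β, star a = a → minpoly ℚ α = minpoly ℚ β →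
    (T v).root (piece v a α) = (T v).root (piece v a β)
  /-- the root numbers at the infinite places -/
  infinite : ∀ v : InfinitePlace K, (T (Sum.inr v)).root (rep (Sum.inr v)) = (-1) ^ g

/-- An abelian variety `A ≠ 0` over the number field `K`, with a polarization. -/
structure AbVar (T : ∀ v : Place K, LocalTheory (Compl K v)) where
  /-- the dimension -/
  g : ℕ
  /-- the algebra `End_K(A) ⊗ ℚ` with the Rosati involution `star` -/
  D : Type
  [ring : Ring D]
  [algebra : Algebra ℚ D]
  [finite : Module.Finite ℚ D]
  [nontrivial : Nontrivial D]
  [starRing : StarRing D]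
  /-- the vector space `A(K) ⊗ ℚ` with the action of the endomorphisms -/
  MW : Type
  [group : AddCommGroup MW]
  [moduleRat : Module ℚ MW]
  [module : Module D MW]
  [tower : IsScalarTower ℚ D MW]
  [finiteMW : Module.Finite ℚ MW]
  /-- the Néron-Tate height pairing of the polarization -/
  height : MW → MW → ℝ
  isHeight : IsHeight MW height
  height_star : ∀ (a : D) (x y : MW), height (a • x) y = height x (star a • y)
  /-- the representations of the Weil-Deligne groups given by the Tate modules of `A` -/
  reps : Reps K T g D

attribute [instance] AbVar.ring AbVar.algebra AbVar.finite AbVar.nontrivial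
  AbVar.starRing AbVar.group AbVar.moduleRat AbVar.module AbVar.tower AbVar.finiteMW

namespace AbVar

variable {K} {T : ∀ v : Place K, LocalTheory (Compl K v)} (A : AbVar K T)

/-- The rank of the group `A(K)`. -/
noncomputable def rank : ℕ := Module.finrank ℚ A.MW

/-- The local root number `w(A / K_v)`. -/
noncomputable def localRoot (v : Place K) : ℂˣ := (T v).root (A.reps.rep v)

/-- The global root number, the product of all the local root numbers. -/
noncomputable def globalRoot : ℂˣ := ∏ᶠ v : Place K, A.localRoot v

/-- The statement of the parity conjecture. -/
def Parity : Prop := (-1) ^ A.rank = A.globalRoot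

/-- `A` is simple: its endomorphism algebra is a division algebra. -/
def IsSimple : Prop := ∀ a : A.D, a ≠ 0 → IsUnit a

/-- The dimension of `End_K(A) ⊗ ℚ` over `ℚ`. -/
noncomputable def dimEnd : ℕ := Module.finrank ℚ A.D

/-- `End_K(A) ⊗ ℚ` is commutative and the Rosati involution is trivial. -/
def TrivialRosati : Prop := ∀ a b : A.D, star a = a ∧ a * b = b * a

/-- There is an invertible element `a` of `End_K(A) ⊗ ℚ` with `star a = -a`. -/
def HasSkew : Prop := ∃ a : A.D, IsUnit a ∧ star a = -a

/-- There is an element `u` of `End_K(A) ⊗ ℚ` with `star u * u = u * star u = 1` such that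
`u ^ 2 - 1` is invertible. -/
def HasUnitary : Prop := ∃ u ∈ unitary A.D, IsUnit (u ^ 2 - 1)

/-- `a` generates the field `End_K(A) ⊗ ℚ` and `α` is an eigenvalue of `a`. -/
def IsGenerator (a : A.D) (α : ℂ) : Prop :=
  (minpoly ℚ a).natDegree = A.dimEnd ∧ aeval α (minpoly ℚ a) = 0

/-- The parity conjecture for the dimension of `A(K) ⊗ ℚ` over `End_K(A) ⊗ ℚ`, with the root numbers
of the eigenspaces of `a` for the eigenvalue `α`. -/
def LinearParity (a : A.D) (α : ℂ) : Prop :=
  (-1) ^ Module.finrank A.D A.MW = ∏ᶠ v : Place K, (T v).root (A.reps.piece v a α)

/-- `A` is isogenous to the product of the powers `B i ^ n i`. -/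
structure IsIsogenous {ι : Type} [Fintype ι] (B : ι → AbVar K T) (n : ι → ℕ) : Prop where
  rank_eq : A.rank = ∑ i, n i * (B i).rank
  rep_eq : ∀ v, A.reps.rep v = ∑ i, n i • (B i).reps.rep v

/-- A property of the base change `A'` of `A` to a finite extension `L` of `K`: the endomorphisms of
`A` over `K` are endomorphisms of `A'` over `L`, with the same Rosati involution. -/
def IsBaseChange {L : Type} [Field L] [NumberField L] {T' : ∀ v : Place L, LocalTheory (Compl L v)}
    (A' : AbVar L T') : Prop :=
  ∃ φ : A.D →ₐ[ℚ] A'.D, ∀ a, φ (star a) = star (φ a)

end AbVar

end Pool.Agent.Zk51.PC
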