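import Pool.Agent.Zk51.PC.Simple

/-!
# Products of simple abelian varieties
-/

set_option autoImplicit false

open NumberField IsDedekindDomain Polynomial

namespace Pool.Agent.Zk51.PC

namespace AbVar

section One

variable {K : Type} [Field K] [NumberField K] {T : ∀ v : Place K, LocalTheory (Compl K v)}

lemma localRoot_finite (A : AbVar K T) :
    Function.HasFiniteMulSupport fun v : Place K => A.localRoot v := by
  have h1 : (⋃ α ∈ eigenvalues (1 : A.D), {v : Place K | (T v).root (A.reps.piece v 1 α) ≠ 1}).Finite :=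
    Set.Finite.biUnion (Finset.finite_toSet _) fun α _ => A.reps.good 1 α
  refine h1.subset ?_
  intro v hv
  by_contra hcon
  apply hv
  change (T v).root (A.reps.rep v) = 1
  rw [A.reps.sum v 1, root_sum]
  refine Finset.prod_eq_one fun α hα => ?_
  by_contra h2
  exact hcon (Set.mem_biUnion hα h2)

/-- The sign `(-1) ^ rank * w(A / K)`. -/
noncomputable def sgn (A : AbVar K T) : ℂˣ := (-1) ^ A.rank * A.globalRoot

lemma neg_one_pow_mul_self (n : ℕ) : ((-1 : ℂˣ) ^ n) * (-1) ^ n = 1 := by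
  rw [← pow_add, ← two_mul, pow_mul, neg_one_sq, one_pow]

lemma parity_iff (n : ℕ) (w : ℂˣ) : (-1) ^ n = w ↔ (-1) ^ n * w = 1 := by
  constructor
  · rintro rfl
    exact neg_one_pow_mul_self n
  · intro h
    calc (-1 : ℂˣ) ^ n = (-1) ^ n * ((-1) ^ n * w) := by rw [h, mul_one]
      _ = w := by rw [← mul_assoc, neg_one_pow_mul_self, one_mul]

lemma globalRoot_sq (A : AbVar K T) : A.globalRoot ^ 2 = 1 := by
  unfold globalRoot
  rw [finprod_pow A.localRoot_finite, finprod_eq_one_of_forall_eq_one]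
  intro v
  unfold localRoot
  rw [A.reps.sum v 1, root_sum, ← Finset.prod_pow]
  refine Finset.prod_eq_one fun α _ => ?_
  rcases A.reps.sign v 1 α (star_one _) with h1 | h1
  · rw [h1, one_pow]
  · rw [h1, neg_one_sq]

lemma sgn_sq (A : AbVar K T) : A.sgn ^ 2 = 1 := by
  unfold sgn
  rw [mul_pow, A.globalRoot_sq, mul_one, ← pow_mul, (even_two.mul_left _).neg_one_pow]

lemma sgn_of_crit {A : AbVar K T} (h : A.Crit) : A.sgn = 1 := by
  obtain ⟨h1, h2⟩ := A.of_crit h
  unfold sgn
  rw [h2, mul_one, h1.neg_one_pow]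

variable {ι : Type} [Fintype ι] {A : AbVar K T} {B : ι → AbVar K T} {n : ι → ℕ}

lemma globalRoot_eq (h : A.IsIsogenous B n) : A.globalRoot = ∏ i, (B i).globalRoot ^ n i := by
  unfold globalRoot
  have h1 : ∀ v : Place K, A.localRoot v = ∏ i, (B i).localRoot v ^ n i := by
    intro v
    unfold localRoot
    rw [h.rep_eq v, root_sum]
    exact Finset.prod_congr rfl fun i _ => root_nsmul _ _ _
  rw [finprod_congr h1, finprod_prod_comm]
  · exact Finset.prod_congr rfl fun i _ => (finprod_pow (B i).localRoot_finite (n i)).symm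
  · intro i _
    refine (B i).localRoot_finite.subset ?_
    intro v hv h2
    apply hv
    change (B i).localRoot v ^ n i = 1
    rw [show (B i).localRoot v = 1 from h2, one_pow]

lemma sgn_eq (h : A.IsIsogenous B n) : A.sgn = ∏ i, (B i).sgn ^ n i := by
  unfold sgn
  rw [globalRoot_eq h, h.rank_eq, ← Finset.prod_pow_eq_pow_sum, ← Finset.prod_mul_distrib]
  refine Finset.prod_congr rfl fun i _ => ?_
  rw [mul_pow, ← pow_mul, mul_comm (n i)]

/-- **Skew endomorphisms and automorphisms.** -/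
theorem crit_of_unitary (A : AbVar K T) {u : A.D} (hu : u ∈ unitary A.D)
    (h1 : IsUnit (u ^ 2 - 1)) : A.Crit := by
  refine Or.inl ⟨u - star u, ?_, by rw [star_sub, star_star, neg_sub]⟩
  have h2 : u - star u = star u * (u ^ 2 - 1) := by
    rw [mul_sub, mul_one, pow_two, ← mul_assoc, hu.1, one_mul]
  rw [h2]
  exact IsUnit.mul ⟨⟨star u, u, hu.1, hu.2⟩, rfl⟩ h1

end One

section Two

variable {K : Type} [Field K] [NumberField K] {T : ∀ v : Place K, LocalTheory (Compl K v)}
  {L : Type} [Field L] [NumberField L] {T' : ∀ v : Place L, LocalTheory (Compl L v)}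
  {ι : Type} [Fintype ι] {B : ι → AbVar K T} {B' : ι → AbVar L T'} {A' : AbVar L T'} {n : ι → ℕ}

/-- **Products.** -/
theorem product_even (hB : ∀ i, (B i).IsSimple) (hbc : ∀ i, (B i).IsBaseChange (B' i))
    (h : A'.IsIsogenous B' n) (he : ∀ i, Even (n i * (B i).dimEnd)) :
    Even A'.rank ∧ A'.globalRoot = 1 := by
  have key : ∀ i, Even (n i * (B' i).rank) ∧ (B' i).globalRoot ^ n i = 1 := by
    intro i
    rcases Nat.even_mul.1 (he i) with hn | hd
    · refine ⟨hn.mul_right _, ?_⟩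
      obtain ⟨k, hk⟩ := hn
      rw [hk, ← two_mul, pow_mul, globalRoot_sq, one_pow]
    · obtain ⟨h1, h2⟩ := (B' i).of_crit (crit_baseChange (hbc i) ((B i).crit_of_simple (hB i) hd))
      exact ⟨h1.mul_left _, by rw [h2, one_pow]⟩
  refine ⟨?_, ?_⟩
  · rw [h.rank_eq]
    exact Finset.even_sum _ fun i _ => (key i).1
  · rw [globalRoot_eq h]
    exact Finset.prod_eq_one fun i _ => (key i).2

/-- **The reduction.** -/
theorem product_parity (hB : ∀ i, (B i).IsSimple) (hbc : ∀ i, (B i).IsBaseChange (B' i))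
    (h : A'.IsIsogenous B' n) (S : Finset ι) (hS : ∀ i, i ∈ S ↔ Odd (n i * (B i).dimEnd)) :
    A'.Parity ↔ (-1) ^ (∑ i ∈ S, (B' i).rank) = ∏ i ∈ S, (B' i).globalRoot := by
  classical
  unfold Parity
  rw [parity_iff, parity_iff]
  change A'.sgn = 1 ↔ _
  rw [sgn_eq h, ← Finset.prod_pow_eq_pow_sum, ← Finset.prod_mul_distrib,
    ← Finset.prod_mul_prod_compl S]
  have h1 : ∏ i ∈ Sᶜ, (B' i).sgn ^ n i = 1 := by
    refine Finset.prod_eq_one fun i hi => ?_
    rw [Finset.mem_compl, hS, Nat.not_odd_iff_even] at hi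
    rcases Nat.even_mul.1 hi with hn | hd
    · obtain ⟨k, hk⟩ := hn
      rw [hk, ← two_mul, pow_mul, sgn_sq, one_pow]
    · rw [sgn_of_crit (crit_baseChange (hbc i) ((B i).crit_of_simple (hB i) hd)), one_pow]
  rw [h1, mul_one]
  have h2 : ∏ i ∈ S, (B' i).sgn ^ n i = ∏ i ∈ S, (-1) ^ (B' i).rank * (B' i).globalRoot := by
    refine Finset.prod_congr rfl fun i hi => ?_
    rw [hS] at hi
    obtain ⟨k, hk⟩ := (Nat.odd_mul.1 hi).1
    rw [hk, pow_succ, pow_mul, sgn_sq, one_pow, one_mul]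
    rfl
  rw [h2]

end Two

end AbVar

end Pool.Agent.Zk51.PC
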