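import Pool.Agent.Zk51.PC.Skew

/-!
# Simple abelian varieties
-/

set_option autoImplicit false

open NumberField IsDedekindDomain Polynomial

namespace Pool.Agent.Zk51.PC

/-- A space with a nondegenerate form and an invertible skew operator has even dimension. -/
lemma even_of_skew {V : Type} [AddCommGroup V] [Module ℚ V] [Module.Finite ℚ V]
    (B : LinearMap.BilinForm ℚ V) (hB : B.Nondegenerate) (f : V →ₗ[ℚ] V) (hf : IsUnit f)
    (h : ∀ x y, B (f x) y = -B x (f y)) : Even (Module.finrank ℚ V) := by
  let b := Module.finBasis ℚ V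
  have hH : ((LinearMap.BilinForm.toMatrix b) B).det ≠ 0 :=
    (LinearMap.BilinForm.nondegenerate_iff_det_ne_zero b).1 hB
  have hM : (LinearMap.toMatrix b b f).det ≠ 0 := by
    rw [LinearMap.det_toMatrix]
    exact (hf.map LinearMap.det).ne_zero
  have h1 : B.comp f LinearMap.id = -(B.comp LinearMap.id f) := by
    ext x y
    exact h x y
  have h2 := congrArg (LinearMap.BilinForm.toMatrix b) h1
  rw [map_neg, LinearMap.BilinForm.toMatrix_comp b, LinearMap.BilinForm.toMatrix_comp b,
    LinearMap.toMatrix_id, Matrix.transpose_one, Matrix.one_mul, Matrix.mul_one] at h2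
  have h3 := congrArg Matrix.det h2
  rw [Matrix.det_mul, Matrix.det_transpose, Matrix.det_neg, Matrix.det_mul, Fintype.card_fin] at h3
  by_contra hodd
  rw [Nat.not_even_iff_odd] at hodd
  rw [hodd.neg_one_pow] at h3
  have h4 : (LinearMap.toMatrix b b f).det * ((LinearMap.BilinForm.toMatrix b) B).det = 0 := by
    linarith [mul_comm ((LinearMap.BilinForm.toMatrix b) B).det (LinearMap.toMatrix b b f).det]
  rcases mul_eq_zero.1 h4 with h5 | h5
  · exact hM h5
  · exact hH h5

section Algebra

variable {D : Type} [Ring D] [Algebra ℚ D] [Module.Finite ℚ D] [StarRing D]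

omit [Module.Finite ℚ D] in
lemma star_smul_rat (c : ℚ) (x : D) : star (c • x) = c • star x := by
  rw [Algebra.smul_def, star_mul, star_algebraMap, Algebra.smul_def, Algebra.commutes]

/-- The trace of the left multiplication. -/
noncomputable def trc (D : Type) [Ring D] [Algebra ℚ D] : D →ₗ[ℚ] ℚ :=
  (LinearMap.trace ℚ D).comp (Algebra.lmul ℚ D).toLinearMap

/-- The form `(x, y) ↦ Tr (x* y)`. -/
noncomputable def form (D : Type) [Ring D] [Algebra ℚ D] [StarRing D] :
    LinearMap.BilinForm ℚ D :=
  LinearMap.mk₂ ℚ (fun x y => trc D (star x * y))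
    (fun x x' y => by rw [star_add, add_mul, map_add])
    (fun c x y => by rw [star_smul_rat, smul_mul_assoc, map_smul])
    (fun x y y' => by rw [mul_add, map_add])
    (fun c x y => by rw [mul_smul_comm, map_smul])

lemma form_nondegenerate [Nontrivial D] (hD : ∀ a : D, a ≠ 0 → IsUnit a) :
    (form D).Nondegenerate := by
  apply LinearMap.BilinForm.Nondegenerate.ofSeparatingLeft
  intro x hx
  by_contra h0
  have h1 : star x ≠ 0 := fun h => h0 (by rw [← star_star x, h, star_zero])
  obtain ⟨u, hu⟩ := hD _ h1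
  have h2 := hx (↑u⁻¹ : D)
  change trc D (star x * (↑u⁻¹ : D)) = 0 at h2
  rw [← hu, Units.mul_inv] at h2
  unfold trc at h2
  rw [LinearMap.comp_apply, AlgHom.toLinearMap_apply, map_one, LinearMap.trace_one] at h2
  have h3 : 0 < Module.finrank ℚ D := Module.finrank_pos
  exact h3.ne' (by exact_mod_cast h2)

/-- A division algebra with an involution and a nonzero skew element has even dimension. -/
lemma even_finrank_of_skew [Nontrivial D] (hD : ∀ a : D, a ≠ 0 → IsUnit a) {a : D} (ha : a ≠ 0)
    (hs : star a = -a) : Even (Module.finrank ℚ D) := by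
  refine even_of_skew (form D) (form_nondegenerate hD) (Algebra.lmul ℚ D a)
    ((hD a ha).map (Algebra.lmul ℚ D)) (fun x y => ?_)
  change trc D (star (a * x) * y) = -trc D (star x * (a * y))
  rw [star_mul, hs, mul_neg, neg_mul, map_neg, mul_assoc]

omit [Module.Finite ℚ D] in
/-- An involution is trivial or there is a nonzero skew element. -/
lemma exists_skew (D : Type) [Ring D] [Algebra ℚ D] [StarRing D] :
    (∀ a : D, star a = a) ∨ ∃ a : D, a ≠ 0 ∧ star a = -a := by
  by_cases h : ∀ a : D, star a = a
  · exact Or.inl h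
  · push Not at h
    obtain ⟨x, hx⟩ := h
    refine Or.inr ⟨x - star x, sub_ne_zero.2 (Ne.symm hx), ?_⟩
    rw [star_sub, star_star, neg_sub]

omit [Module.Finite ℚ D] [Algebra ℚ D] in
lemma isField_of_star (h : ∀ a : D, star a = a) [Nontrivial D]
    (hD : ∀ a : D, a ≠ 0 → IsUnit a) : IsField D where
  exists_pair_ne := exists_pair_ne D
  mul_comm := fun x y => by rw [← h (x * y), star_mul, h, h]
  mul_inv_cancel := fun {a} ha => by
    obtain ⟨u, rfl⟩ := hD a ha
    exact ⟨↑u⁻¹, Units.mul_inv u⟩

lemma exists_gen_field (E : Type) [Field E] [Algebra ℚ E] [Module.Finite ℚ E] :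
    ∃ a : E, (minpoly ℚ a).natDegree = Module.finrank ℚ E ∧ Irreducible (minpoly ℚ a) := by
  obtain ⟨a, ha⟩ := Field.exists_primitive_element ℚ E
  exact ⟨a, (Field.primitive_element_iff_minpoly_natDegree_eq ℚ a).1 ha,
    minpoly.irreducible (Algebra.IsIntegral.isIntegral a)⟩

omit [StarRing D] in
lemma exists_gen (h : IsField D) :
    ∃ a : D, (minpoly ℚ a).natDegree = Module.finrank ℚ D ∧ Irreducible (minpoly ℚ a) :=
  @exists_gen_field D h.toField _ _

omit [StarRing D] [Module.Finite ℚ D] in
lemma card_eigenvalues {a : D} (ha : Irreducible (minpoly ℚ a)) :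
    (eigenvalues a).card = (minpoly ℚ a).natDegree := by
  unfold eigenvalues
  rw [Multiset.toFinset_card_of_nodup, IsAlgClosed.card_aroots_eq_natDegree]
  refine (nodup_aroots_iff_of_splits ha.ne_zero (IsAlgClosed.splits _)).2 ha.separable

omit [StarRing D] in
lemma minpoly_eigenvalue {a : D} (ha : Irreducible (minpoly ℚ a)) {α : ℂ}
    (h : α ∈ eigenvalues a) : minpoly ℚ α = minpoly ℚ a :=
  (minpoly.eq_of_irreducible_of_monic ha (mem_eigenvalues.1 h)
    (minpoly.monic (Algebra.IsIntegral.isIntegral a))).symm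

end Algebra

lemma finrank_mul_division (D M : Type) [DivisionRing D] [Algebra ℚ D] [AddCommGroup M]
    [Module ℚ M] [Module D M] [IsScalarTower ℚ D M] :
    Module.finrank ℚ D * Module.finrank D M = Module.finrank ℚ M :=
  Module.finrank_mul_finrank ℚ D M

lemma finrank_mul (D M : Type) [Ring D] [Nontrivial D] (hD : ∀ a : D, a ≠ 0 → IsUnit a)
    [Algebra ℚ D] [AddCommGroup M] [Module ℚ M] [Module D M] [IsScalarTower ℚ D M] :
    Module.finrank ℚ D * Module.finrank D M = Module.finrank ℚ M :=
  @finrank_mul_division D M (DivisionRing.ofIsUnitOrEqZero fun a =>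
    (eq_or_ne a 0).symm.imp_left (hD a)) _ _ _ _ _

/-- The degree of an irreducible polynomial which annihilates an operator divides the dimension. -/
lemma natDegree_dvd_finrank {M : Type} [AddCommGroup M] [Module ℚ M] [Module.Finite ℚ M]
    (f : Module.End ℚ M) {p : ℚ[X]} (hp : Irreducible p) (h : aeval f p = 0) :
    p.natDegree ∣ Module.finrank ℚ M := by
  have hmax : (Ideal.span {p}).IsMaximal := PrincipalIdealRing.isMaximal_of_irreducible hp
  let _ : Field (ℚ[X] ⧸ Ideal.span {p}) := Ideal.Quotient.field _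
  let ψ : (ℚ[X] ⧸ Ideal.span {p}) →ₐ[ℚ] Module.End ℚ M :=
    Ideal.Quotient.liftₐ (Ideal.span {p}) (aeval f) (by
      intro q hq
      obtain ⟨g, rfl⟩ := Ideal.mem_span_singleton.1 hq
      rw [map_mul, h, zero_mul])
  let _ : Module (ℚ[X] ⧸ Ideal.span {p}) M := Module.compHom M ψ.toRingHom
  have : IsScalarTower ℚ (ℚ[X] ⧸ Ideal.span {p}) M := by
    refine ⟨fun c x m => ?_⟩
    change ψ (c • x) m = c • ψ x m
    rw [map_smul]
    rfl
  have h1 := Module.finrank_mul_finrank ℚ (ℚ[X] ⧸ Ideal.span {p}) M
  rw [finrank_quotient_span_eq_natDegree] at h1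
  exact ⟨_, h1.symm⟩

namespace AbVar

variable {K : Type} [Field K] [NumberField K] {T : ∀ v : Place K, LocalTheory (Compl K v)}
  (A : AbVar K T)

/-- The rank is the product of the dimension of the endomorphism algebra and of the dimension of
`A(K) ⊗ ℚ` over it. -/
lemma rank_eq (hA : A.IsSimple) : A.rank = A.dimEnd * Module.finrank A.D A.MW :=
  (finrank_mul A.D A.MW hA).symm

/-- The local root numbers of an abelian variety with a symmetric endomorphism. -/
lemma localRoot_eq {a : A.D} (hs : star a = a) (ha : Irreducible (minpoly ℚ a)) {α : ℂ}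
    (hα : α ∈ eigenvalues a) (v : Place K) :
    A.localRoot v = (T v).root (A.reps.piece v a α) ^ (minpoly ℚ a).natDegree := by
  unfold localRoot
  rw [A.reps.sum v a, root_sum, Finset.prod_congr rfl (g := fun _ => (T v).root (A.reps.piece v a α)),
    Finset.prod_const, card_eigenvalues ha]
  intro β hβ
  exact A.reps.conj v a β α hs (by rw [minpoly_eigenvalue ha hα, minpoly_eigenvalue ha hβ])

/-- There is an invertible skew endomorphism, or there is a symmetric endomorphism which generates
a field of even degree. -/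
def Crit : Prop :=
  (∃ a : A.D, IsUnit a ∧ star a = -a) ∨
    ∃ a : A.D, star a = a ∧ Irreducible (minpoly ℚ a) ∧ Even (minpoly ℚ a).natDegree

/-- The criterion implies that the rank is even and that the root number is one. -/
theorem of_crit (h : A.Crit) : Even A.rank ∧ A.globalRoot = 1 := by
  rcases h with ⟨a, ha, hs⟩ | ⟨a, hs, hirr, he⟩
  · exact ⟨A.even_rank_of_skew ha hs, A.globalRoot_of_skew ha hs⟩
  · constructor
    · have h1 : aeval (Algebra.lsmul ℚ ℚ A.MW a) (minpoly ℚ a) = 0 := by
        rw [aeval_algHom_apply, minpoly.aeval, map_zero]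
      exact he.trans_dvd (natDegree_dvd_finrank _ hirr h1)
    · obtain ⟨α, hα⟩ : (eigenvalues a).Nonempty := by
        rw [← Finset.card_pos, card_eigenvalues hirr]
        exact hirr.natDegree_pos
      unfold globalRoot
      rw [finprod_eq_one_of_forall_eq_one]
      intro v
      rw [A.localRoot_eq hs hirr hα]
      rcases A.reps.sign v a α hs with h1 | h1
      · rw [h1, one_pow]
      · rw [h1, he.neg_one_pow]

/-- **Simple abelian varieties with an endomorphism algebra of even dimension.** -/
theorem crit_of_simple (hA : A.IsSimple) (he : Even A.dimEnd) : A.Crit := by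
  rcases exists_skew A.D with h | ⟨a, ha, hs⟩
  · obtain ⟨a, hdeg, hirr⟩ := exists_gen (isField_of_star h hA)
    exact Or.inr ⟨a, h a, hirr, by rw [hdeg]; exact he⟩
  · exact Or.inl ⟨a, hA a ha, hs⟩

/-- The criterion is stable under extensions of the base field. -/
theorem crit_baseChange {A : AbVar K T} {L : Type} [Field L] [NumberField L]
    {T' : ∀ v : Place L, LocalTheory (Compl L v)} {A' : AbVar L T'} (h : A.IsBaseChange A')
    (hc : A.Crit) : A'.Crit := by
  obtain ⟨φ, hφ⟩ := h
  rcases hc with ⟨a, ha, hs⟩ | ⟨a, hs, hirr, he⟩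
  · exact Or.inl ⟨φ a, ha.map φ, by rw [← hφ, hs, map_neg]⟩
  · have h1 : minpoly ℚ (φ a) = minpoly ℚ a := by
      refine (minpoly.eq_of_irreducible_of_monic hirr ?_
        (minpoly.monic (Algebra.IsIntegral.isIntegral a))).symm
      rw [aeval_algHom_apply, minpoly.aeval, map_zero]
    exact Or.inr ⟨φ a, by rw [← hφ, hs], by rw [h1]; exact hirr, by rw [h1]; exact he⟩

/-- **Simple abelian varieties with an endomorphism algebra of odd dimension.** -/
theorem simple_odd (hA : A.IsSimple) (ho : Odd A.dimEnd) :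
    A.TrivialRosati ∧ ∀ a α, A.IsGenerator a α → (A.Parity ↔ A.LinearParity a α) := by
  have h : ∀ a : A.D, star a = a := by
    rcases exists_skew A.D with h | ⟨a, ha, hs⟩
    · exact h
    · exact absurd (even_finrank_of_skew hA ha hs) (Nat.not_even_iff_odd.2 ho)
  have hF := isField_of_star h hA
  refine ⟨fun a b => ⟨h a, hF.mul_comm a b⟩, fun a α ⟨hdeg, hα⟩ => ?_⟩
  have hirr : Irreducible (minpoly ℚ a) := by
    have := hF.isDomain
    exact minpoly.irreducible (Algebra.IsIntegral.isIntegral a)
  have h1 : A.globalRoot = ∏ᶠ v : Place K, (T v).root (A.reps.piece v a α) := by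
    unfold globalRoot
    refine finprod_congr fun v => ?_
    rw [A.localRoot_eq (h a) hirr (mem_eigenvalues.2 hα), hdeg]
    rcases A.reps.sign v a α (h a) with h1 | h1
    · rw [h1, one_pow]
    · rw [h1, ho.neg_one_pow]
  have h2 : (-1 : ℂˣ) ^ A.rank = (-1) ^ Module.finrank A.D A.MW := by
    rw [A.rank_eq hA, pow_mul, ho.neg_one_pow]
  unfold Parity LinearParity
  rw [h1, h2]

end AbVar

end Pool.Agent.Zk51.PC
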