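import Pool.Agent.Zk51.PC.Basic

/-!
# Abelian varieties with an invertible skew endomorphism
-/

set_option autoImplicit false

open NumberField IsDedekindDomain Polynomial

namespace Pool.Agent.Zk51.PC

section Algebra

variable {D : Type} [Ring D] [Algebra ℚ D]

lemma mem_eigenvalues [Module.Finite ℚ D] {a : D} {α : ℂ} :
    α ∈ eigenvalues a ↔ aeval α (minpoly ℚ a) = 0 := by
  unfold eigenvalues
  rw [Multiset.mem_toFinset, mem_aroots]
  exact ⟨fun h => h.2, fun h => ⟨minpoly.ne_zero (Algebra.IsIntegral.isIntegral a), h⟩⟩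

lemma star_algebraMap [StarRing D] (c : ℚ) : star (algebraMap ℚ D c) = algebraMap ℚ D c := by
  have h : ((starRingEquiv : D ≃+* Dᵐᵒᵖ) : D →+* Dᵐᵒᵖ).comp (algebraMap ℚ D) =
      algebraMap ℚ Dᵐᵒᵖ := Subsingleton.elim _ _
  have h1 := RingHom.congr_fun h c
  exact MulOpposite.op_injective h1

lemma aeval_star [StarRing D] (a : D) (p : ℚ[X]) : aeval (star a) p = star (aeval a p) := by
  induction p using Polynomial.induction_on' with
  | add p q hp hq => rw [map_add, map_add, star_add, hp, hq]
  | monomial n c =>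
    rw [aeval_monomial, aeval_monomial, star_mul, star_pow, star_algebraMap,
      Algebra.commutes]

variable [Module.Finite ℚ D] [StarRing D]

lemma neg_mem_eigenvalues {a : D} (ha : star a = -a) {α : ℂ} (h : α ∈ eigenvalues a) :
    -α ∈ eigenvalues a := by
  rw [mem_eigenvalues] at h ⊢
  have h1 : aeval a ((minpoly ℚ a).comp (-X)) = 0 := by
    rw [aeval_comp, map_neg, aeval_X, ← ha, aeval_star, minpoly.aeval, star_zero]
  obtain ⟨q, hq⟩ := minpoly.dvd ℚ a h1
  have h2 : aeval α ((minpoly ℚ a).comp (-X)) = 0 := by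
    rw [hq, map_mul, h, zero_mul]
  rwa [aeval_comp, map_neg, aeval_X] at h2

omit [StarRing D] in
lemma zero_notMem_eigenvalues [Nontrivial D] {a : D} (ha : IsUnit a) : (0 : ℂ) ∉ eigenvalues a := by
  intro h
  rw [mem_eigenvalues] at h
  have h1 : (minpoly ℚ a).coeff 0 = 0 := by
    rw [← coeff_zero_eq_aeval_zero'] at h
    exact (map_eq_zero_iff _ (algebraMap ℚ ℂ).injective).1 h
  obtain ⟨q, hq⟩ := X_dvd_iff.2 h1
  have hint : IsIntegral ℚ a := Algebra.IsIntegral.isIntegral a
  have hmon : q.Monic := by
    have h2 := minpoly.monic hint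
    rw [hq, Monic, leadingCoeff_mul, leadingCoeff_X, one_mul] at h2
    exact h2
  have h2 : aeval a q = 0 := by
    have h3 := minpoly.aeval ℚ a
    rw [hq, map_mul, aeval_X] at h3
    exact (ha.mul_right_eq_zero).1 h3
  have h3 := minpoly.min ℚ a hmon h2
  rw [hq, degree_mul, degree_X] at h3
  have h4 : q.degree ≠ ⊥ := degree_ne_bot.2 hmon.ne_zero
  obtain ⟨n, hn⟩ := WithBot.ne_bot_iff_exists.1 h4
  rw [← hn] at h3
  have h5 : ((1 + n : ℕ) : WithBot ℕ) ≤ (n : WithBot ℕ) := by
    rw [Nat.cast_add, Nat.cast_one]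
    exact h3
  rw [Nat.cast_le] at h5
  omega

end Algebra

section Prod

open Classical in
/-- Half of the nonzero complex numbers. -/
noncomputable def half (S : Finset ℂ) : Finset ℂ :=
  S.filter fun α => 0 < α.re ∨ (α.re = 0 ∧ 0 < α.im)

lemma prod_half {M : Type} [CommMonoid M] (S : Finset ℂ) (h0 : (0 : ℂ) ∉ S)
    (hS : ∀ α ∈ S, -α ∈ S) (f : ℂ → M) : ∏ α ∈ S, f α = ∏ α ∈ half S, f α * f (-α) := by
  classical
  have h1 : S = half S ∪ (half S).image (fun α => -α) := by
    ext α
    rw [Finset.mem_union, Finset.mem_image]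
    unfold half
    simp only [Finset.mem_filter]
    constructor
    · intro hα
      have hne : α ≠ 0 := fun h => h0 (h ▸ hα)
      rcases lt_trichotomy α.re 0 with h | h | h
      · right
        refine ⟨-α, ⟨hS α hα, Or.inl ?_⟩, neg_neg α⟩
        rw [Complex.neg_re]
        linarith
      · rcases lt_trichotomy α.im 0 with h' | h' | h'
        · right
          refine ⟨-α, ⟨hS α hα, Or.inr ⟨?_, ?_⟩⟩, neg_neg α⟩
          · rw [Complex.neg_re, h, neg_zero]
          · rw [Complex.neg_im]
            linarith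
        · exact absurd (Complex.ext h h') hne
        · left
          exact ⟨hα, Or.inr ⟨h, h'⟩⟩
      · left
        exact ⟨hα, Or.inl h⟩
    · rintro (⟨h, -⟩ | ⟨β, ⟨h, -⟩, rfl⟩)
      · exact h
      · exact hS β h
  have h2 : Disjoint (half S) ((half S).image (fun α => -α)) := by
    rw [Finset.disjoint_left]
    intro α hα hα'
    rw [Finset.mem_image] at hα'
    obtain ⟨β, hβ, rfl⟩ := hα'
    unfold half at hα hβ
    rw [Finset.mem_filter] at hα hβ
    have h3 := hα.2
    have h4 := hβ.2
    rw [Complex.neg_re, Complex.neg_im] at h3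
    rcases h3 with h3 | ⟨h3, h3'⟩
    · rcases h4 with h4 | ⟨h4, -⟩
      · linarith
      · linarith
    · rcases h4 with h4 | ⟨-, h4⟩
      · linarith
      · linarith
  conv_lhs => rw [h1]
  rw [Finset.prod_union h2, Finset.prod_image (fun a _ b _ h => neg_injective h),
    ← Finset.prod_mul_distrib]

end Prod

section Hecke

variable {K : Type} [Field K] [NumberField K]

lemma isUnitAt_neg_one (v : HeightOneSpectrum (𝓞 K)) : IsUnitAt K v (-1) := by
  have h : Valued.v (-1 : v.adicCompletion K) = 1 := by rw [Valuation.map_neg, map_one]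
  exact h

lemma hecke_finite (ψ : IdeleClassCharacter K) :
    {v : Place K | ψ.loc v (-1) ≠ 1}.Finite := by
  have h1 : {v : Place K | ψ.loc v (-1) ≠ 1} ⊆
      Sum.inl '' {v : HeightOneSpectrum (𝓞 K) | ∃ u, IsUnitAt K v u ∧ ψ.loc (Sum.inl v) u ≠ 1} ∪
        Set.range Sum.inr := by
    rintro (v | v) hv
    · left
      exact ⟨v, ⟨-1, isUnitAt_neg_one v, hv⟩, rfl⟩
    · right
      exact ⟨v, rfl⟩
  exact ((ψ.unramified.image _).union (Set.finite_range _)).subset h1

lemma hecke_neg_one (ψ : IdeleClassCharacter K) : ∏ᶠ v : Place K, ψ.loc v (-1) = 1 := by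
  have h := ψ.trivial_on_K (-1)
  have h1 : ∀ v : Place K, emb K v (-1) = -1 := by
    intro v
    ext
    simp [emb]
  rw [← h]
  exact finprod_congr fun v => by rw [h1 v]

end Hecke

section Root

variable {F : Type} [Field F] (T : LocalTheory F)

lemma root_sum {ι : Type} (s : Finset ι) (V : ι → T.Rep) :
    T.root (∑ i ∈ s, V i) = ∏ i ∈ s, T.root (V i) := by
  classical
  induction s using Finset.induction_on with
  | empty => rw [Finset.sum_empty, Finset.prod_empty, T.root_zero]
  | insert a s ha ih => rw [Finset.sum_insert ha, Finset.prod_insert ha, T.root_add, ih]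

lemma root_nsmul (n : ℕ) (V : T.Rep) : T.root (n • V) = T.root V ^ n := by
  induction n with
  | zero => rw [zero_smul, pow_zero, T.root_zero]
  | succ n ih => rw [succ_nsmul, T.root_add, ih, pow_succ]

end Root

namespace AbVar

variable {K : Type} [Field K] [NumberField K] {T : ∀ v : Place K, LocalTheory (Compl K v)}
  (A : AbVar K T)

/-- The global root number is one if there is an invertible skew endomorphism. -/
theorem globalRoot_of_skew {a : A.D} (ha : IsUnit a) (hs : star a = -a) :
    A.globalRoot = 1 := by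
  unfold globalRoot localRoot
  have h1 : ∀ v : Place K, (T v).root (A.reps.rep v) =
      ∏ α ∈ half (eigenvalues a), (T v).det (A.reps.piece v a α) (-1) := by
    intro v
    rw [A.reps.sum v a, root_sum, prod_half _ (zero_notMem_eigenvalues ha)
      (fun α hα => neg_mem_eigenvalues hs hα)]
    refine Finset.prod_congr rfl fun α _ => ?_
    rw [← A.reps.neg, ← hs, ← A.reps.dual, (T v).root_dual]
  choose ψ hψ using fun α => A.reps.det a α
  rw [finprod_congr h1, finprod_prod_comm]
  · refine Finset.prod_eq_one fun α _ => ?_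
    rw [← hecke_neg_one (ψ α)]
    exact finprod_congr fun v => by rw [hψ α v]
  · intro α _
    have h2 := hecke_finite (ψ α)
    refine h2.subset ?_
    intro v hv
    change (ψ α).loc v (-1) ≠ 1
    rw [← hψ α v]
    exact hv

/-- The rank is even if there is an invertible skew endomorphism. -/
theorem even_rank_of_skew {a : A.D} (ha : IsUnit a) (hs : star a = -a) : Even A.rank := by
  let b := Module.finBasis ℚ A.MW
  let f : A.MW →ₗ[ℚ] A.MW := Module.toModuleEnd ℚ A.MW a
  have hf : ∀ x, f x = a • x := fun x => rfl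
  let M := LinearMap.toMatrix b b f
  let H : Matrix (Fin (Module.finrank ℚ A.MW)) (Fin (Module.finrank ℚ A.MW)) ℝ :=
    Matrix.of fun i j => A.height (b i) (b j)
  have hH : H.det ≠ 0 := by
    intro h0
    obtain ⟨c, hc, hc'⟩ := Matrix.exists_mulVec_eq_zero_iff.2 h0
    have h1 := A.isHeight.pos _ b b.linearIndependent c hc
    have h2 : ∑ i, ∑ j, c i * c j * A.height (b i) (b j) = 0 := by
      refine Finset.sum_eq_zero fun i _ => ?_
      have h3 := congrFun hc' i
      calc ∑ j, c i * c j * A.height (b i) (b j) = c i * (H.mulVec c) i := by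
            rw [Matrix.mulVec, dotProduct, Finset.mul_sum]
            refine Finset.sum_congr rfl fun j _ => ?_
            change _ = c i * (A.height (b i) (b j) * c j)
            ring
        _ = 0 := by rw [h3, Pi.zero_apply, mul_zero]
    rw [h2] at h1
    exact lt_irrefl _ h1
  have hM : M.det ≠ 0 := by
    have h1 : IsUnit f := by
      obtain ⟨u, rfl⟩ := ha
      exact (u.isUnit).map (Module.toModuleEnd ℚ A.MW)
    have h2 : IsUnit M.det := by
      rw [LinearMap.det_toMatrix]
      exact h1.map LinearMap.det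
    exact h2.ne_zero
  let M' : Matrix (Fin (Module.finrank ℚ A.MW)) (Fin (Module.finrank ℚ A.MW)) ℝ :=
    M.map (algebraMap ℚ ℝ)
  have hM' : M'.det ≠ 0 := by
    have h1 : M'.det = algebraMap ℚ ℝ M.det := (RingHom.map_det _ _).symm
    rw [h1]
    exact (map_ne_zero_iff _ (algebraMap ℚ ℝ).injective).2 hM
  have hbasis : ∀ j, a • b j = ∑ i, M i j • b i := by
    intro j
    rw [← hf]
    conv_lhs => rw [← b.sum_repr (f (b j))]
    exact Finset.sum_congr rfl fun i _ =>
      congrArg (fun c : ℚ => c • b i) (LinearMap.toMatrix_apply b b f i j).symm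
  -- the height pairing is additive in the first variable
  have hsum : ∀ (s : Finset (Fin (Module.finrank ℚ A.MW))) (c : Fin (Module.finrank ℚ A.MW) → ℚ)
      (y : A.MW), A.height (∑ i ∈ s, c i • b i) y = ∑ i ∈ s, (c i : ℝ) * A.height (b i) y := by
    intro s c y
    classical
    induction s using Finset.induction_on with
    | empty =>
      rw [Finset.sum_empty, Finset.sum_empty]
      have h1 := A.isHeight.smul 0 0 y
      rw [zero_smul, Rat.cast_zero, zero_mul] at h1
      exact h1
    | insert i s hi ih =>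
      rw [Finset.sum_insert hi, Finset.sum_insert hi, A.isHeight.add, A.isHeight.smul, ih]
  have h1 : M'.transpose * H = -(H * M') := by
    ext i j
    have h2 := A.height_star a (b i) (b j)
    rw [hs, neg_smul, A.isHeight.symm (b i), ← neg_one_smul ℚ (a • b j), A.isHeight.smul, hbasis,
      hbasis, hsum, hsum] at h2
    rw [Matrix.mul_apply, Matrix.neg_apply, Matrix.mul_apply]
    have h3 : ∀ k, (M'.transpose i k) * H k j = (M k i : ℝ) * A.height (b k) (b j) := fun k => rfl
    have h4 : ∀ k, H i k * M' k j = (M k j : ℝ) * A.height (b k) (b i) := by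
      intro k
      rw [A.isHeight.symm (b k), mul_comm]
      rfl
    rw [Finset.sum_congr rfl fun k _ => h3 k, Finset.sum_congr rfl fun k _ => h4 k, h2]
    push_cast
    ring
  have h2 := congrArg Matrix.det h1
  rw [Matrix.det_mul, Matrix.det_transpose, Matrix.det_neg, Matrix.det_mul, Fintype.card_fin] at h2
  unfold rank
  by_contra hodd
  rw [Nat.not_even_iff_odd] at hodd
  rw [hodd.neg_one_pow] at h2
  have h3 : M'.det * H.det = 0 := by linarith [mul_comm H.det M'.det]
  rcases mul_eq_zero.1 h3 with h4 | h4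
  · exact hM' h4
  · exact hH h4

end AbVar

end Pool.Agent.Zk51.PC
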